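import Pool.Agent.TH457.HT.DetDefs
import Pool.Agent.H867R4.NCount
import Pool.Agent.H867R4.NLower

/-!
# The discrepancy of programs with several slow heads
-/

set_option autoImplicit false

open Finset

namespace Pool.Agent.TH706.QT

open Pool.Agent.TH457.HT (DetProg prob)
open Pool.Agent.H541R2 (gsign mu mu_nonneg mu_lt_one gip_disc gsign_abs)
open Pool.Agent.H867R4 (exists_row)

variable {Λ : Type} {n k : ℕ}

/-- one step; final configurations are not left -/
def stp (P : DetProg Λ n k) (x : Fin n → Λ) (c : P.Cfg) : P.Cfg :=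
  if P.out c.1 c.2 = none then P.step x c else c

theorem stp_pos (P : DetProg Λ n k) (x : Fin n → Λ) (c : P.Cfg) : ∀ (m : ℕ) (i : Fin k),
    (((stp P x)^[m] c).2 i : ℕ) ≤ (c.2 i : ℕ) + m ∧ (c.2 i : ℕ) ≤ (((stp P x)^[m] c).2 i : ℕ) + m := by
  intro m
  induction m with
  | zero => intro i; exact ⟨le_rfl, le_rfl⟩
  | succ m ih =>
    intro i
    obtain ⟨h1, h2⟩ := ih i
    rw [Function.iterate_succ_apply']
    obtain ⟨d, hd⟩ : ∃ d, d = (stp P x)^[m] c := ⟨_, rfl⟩
    rw [← hd] at h1 h2 ⊢
    unfold stp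
    split_ifs with h
    · have h3 := P.slow d.1 d.2 (fun i => x (d.2 i)) i
      have e : (P.step x d).2 i = (P.move d.1 d.2 (fun i => x (d.2 i))).2 i := rfl
      rw [e]
      omega
    · omega

theorem answers_iff (P : DetProg Λ n k) (T : ℕ) (x : Fin n → Λ) (b : Bool) :
    P.Answers T x b ↔
      P.out ((stp P x)^[T] P.start).1 ((stp P x)^[T] P.start).2 = some b := by
  have h1 : ∀ t, (∀ u < t, P.out ((P.step x)^[u] P.start).1 ((P.step x)^[u] P.start).2 = none) →
      (stp P x)^[t] P.start = (P.step x)^[t] P.start := by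
    intro t
    induction t with
    | zero => intro _; rfl
    | succ t ih =>
      intro h
      rw [Function.iterate_succ_apply', Function.iterate_succ_apply',
        ih (fun u hu => h u (by omega))]
      unfold stp
      rw [if_pos (h t (by omega))]
  have h2 : ∀ t b, (∀ u < t, P.out ((P.step x)^[u] P.start).1 ((P.step x)^[u] P.start).2 = none) →
      P.out ((P.step x)^[t] P.start).1 ((P.step x)^[t] P.start).2 = some b → ∀ j,
      (stp P x)^[t + j] P.start = (P.step x)^[t] P.start := by
    intro t b h hb j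
    induction j with
    | zero => exact h1 t h
    | succ j ih =>
      rw [← add_assoc, Function.iterate_succ_apply', ih]
      unfold stp
      rw [if_neg (by rw [hb]; simp)]
  constructor
  · rintro ⟨t, ht, hb, hn⟩
    have h3 := h2 t b hn hb (T - t)
    rw [show t + (T - t) = T by omega] at h3
    rw [h3]
    exact hb
  · intro h
    by_cases hex : ∃ t, t ≤ T ∧
        P.out ((P.step x)^[t] P.start).1 ((P.step x)^[t] P.start).2 ≠ none
    · classical
      obtain ⟨a1, a2⟩ := Nat.find_spec hex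
      have a3 : ∀ u < Nat.find hex,
          P.out ((P.step x)^[u] P.start).1 ((P.step x)^[u] P.start).2 = none := by
        intro u hu
        have := Nat.find_min hex hu
        by_contra hcon
        exact this ⟨by omega, hcon⟩
      obtain ⟨b', hb'⟩ := Option.ne_none_iff_exists'.1 a2
      have h3 := h2 (Nat.find hex) b' a3 hb' (T - Nat.find hex)
      rw [show Nat.find hex + (T - Nat.find hex) = T by omega] at h3
      rw [h3] at h
      exact ⟨_, a1, h, a3⟩
    · push Not at hex
      rw [h1 T (fun u hu => hex u (by omega)), hex T le_rfl] at h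
      exact absurd h (by simp)

/-- In a short interval of time some row is not read. -/
theorem blind (P : DetProg Λ n k) {D : ℕ} (hD : 0 < D) (c : P.Cfg) :
    ∃ r : Fin (3 * k + 1), ∀ x x' : Fin n → Λ, (∀ p : Fin n, (p : ℕ) / D ≠ r.val → x p = x' p) →
      ∀ m ≤ D, (stp P x)^[m] c = (stp P x')^[m] c := by
  obtain ⟨r, hr⟩ := exists_row (fun (i : Fin k) (e : Fin 3) => (c.2 i : ℕ) / D + e.val)
  refine ⟨r, fun x x' hxx => ?_⟩
  intro m
  induction m with
  | zero => intro _; rfl
  | succ m ih =>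
    intro hm
    rw [Function.iterate_succ_apply', Function.iterate_succ_apply', ← ih (by omega)]
    have hpos := stp_pos P x c m
    obtain ⟨d, hd⟩ : ∃ d, d = (stp P x)^[m] c := ⟨_, rfl⟩
    rw [← hd] at hpos ⊢
    have hrd : (fun i => x (d.2 i)) = fun i => x' (d.2 i) := by
      funext i
      apply hxx
      intro hblk
      obtain ⟨a1, a2⟩ := hpos i
      have e0 := hr i 0
      have e1 := hr i 1
      have e2 := hr i 2
      simp only [Fin.val_zero, Fin.val_one, Fin.val_two] at e0 e1 e2
      have hq1 : (d.2 i : ℕ) / D ≤ (c.2 i : ℕ) / D + 1 := by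
        calc (d.2 i : ℕ) / D ≤ ((c.2 i : ℕ) + D) / D := Nat.div_le_div_right (by omega)
          _ = (c.2 i : ℕ) / D + 1 := Nat.add_div_right _ hD
      have hq2 : (c.2 i : ℕ) / D ≤ (d.2 i : ℕ) / D + 1 := by
        calc (c.2 i : ℕ) / D ≤ ((d.2 i : ℕ) + D) / D := Nat.div_le_div_right (by omega)
          _ = (d.2 i : ℕ) / D + 1 := Nat.add_div_right _ hD
      omega
    unfold stp
    split_ifs with h
    · show P.move _ _ _ = P.move _ _ _
      rw [hrd]
    · rfl

open Classical in
/-- **Discrepancy.** -/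
theorem disc (P : DetProg Λ n k) {D N : ℕ} (hD : 0 < D)
    (W : (Fin (3 * k + 1) → Fin N → Bool) → Fin n → Λ)
    (hW : ∀ (r : Fin (3 * k + 1)) (b b' : Fin (3 * k + 1) → Fin N → Bool),
      (∀ j, j ≠ r → b j = b' j) → ∀ p : Fin n, (p : ℕ) / D ≠ r.val → W b p = W b' p)
    (o : P.Cfg → ℝ) (ho : ∀ s, |o s| ≤ 1) :
    ∀ (R T : ℕ), T ≤ R * D → ∀ (c : P.Cfg)
      (φ : Fin (3 * k + 1) → (Fin (3 * k + 1) → Fin N → Bool) → ℝ),
      (∀ i x, |φ i x| ≤ 1) → (∀ i x y, (∀ j, j ≠ i → x j = y j) → φ i x = φ i y) →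
      |∑ b : Fin (3 * k + 1) → Fin N → Bool, gsign univ b * (∏ i, φ i b) *
        o ((stp P (W b))^[T] c)| ≤
        (Fintype.card P.Cfg : ℝ) ^ R * ((2 ^ N : ℝ) ^ (3 * k + 1) * (mu (3 * k)) ^ N) := by
  intro R
  induction R with
  | zero =>
    intro T hT c φ h1 h2
    have hT0 : T = 0 := by omega
    subst hT0
    have key := gip_disc (3 * k) N univ φ h1 h2
    rw [Finset.card_univ, Fintype.card_fin] at key
    have e : ∑ b : Fin (3 * k + 1) → Fin N → Bool, gsign univ b * (∏ i, φ i b) *
        o ((stp P (W b))^[0] c) = (∑ b : Fin (3 * k + 1) → Fin N → Bool,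
          gsign univ b * ∏ i, φ i b) * o c := by
      rw [Finset.sum_mul]
      rfl
    rw [e, abs_mul, pow_zero, one_mul]
    calc |∑ b : Fin (3 * k + 1) → Fin N → Bool, gsign univ b * ∏ i, φ i b| * |o c| ≤
          |∑ b : Fin (3 * k + 1) → Fin N → Bool, gsign univ b * ∏ i, φ i b| * 1 :=
          mul_le_mul_of_nonneg_left (ho _) (abs_nonneg _)
      _ ≤ _ := by rw [mul_one]; exact key
  | succ R ih =>
    intro T hT c φ h1 h2
    obtain ⟨m, hm⟩ : ∃ m, m = min T D := ⟨_, rfl⟩
    obtain ⟨T', hT'⟩ : ∃ T', T' = T - m := ⟨_, rfl⟩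
    have hTm : T = T' + m := by omega
    have hT'R : T' ≤ R * D := by
      have e : (R + 1) * D = R * D + D := by ring
      omega
    have hmD : m ≤ D := by omega
    obtain ⟨r, hr⟩ := blind P hD c
    have e1 : ∀ b : Fin (3 * k + 1) → Fin N → Bool, o ((stp P (W b))^[T] c) = ∑ d : P.Cfg,
        (if (stp P (W b))^[m] c = d then (1 : ℝ) else 0) * o ((stp P (W b))^[T'] d) := by
      intro b
      rw [hTm, Function.iterate_add_apply]
      simp only [ite_mul, one_mul, zero_mul]
      rw [Finset.sum_ite_eq, if_pos (Finset.mem_univ _)]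
    have e2 : ∑ b : Fin (3 * k + 1) → Fin N → Bool, gsign univ b * (∏ i, φ i b) *
        o ((stp P (W b))^[T] c) = ∑ d : P.Cfg,
        ∑ b : Fin (3 * k + 1) → Fin N → Bool, gsign univ b *
          (∏ i, (φ i b * (if i = r then (if (stp P (W b))^[m] c = d then (1 : ℝ) else 0) else 1))) *
          o ((stp P (W b))^[T'] d) := by
      rw [Finset.sum_comm]
      refine Finset.sum_congr rfl fun b _ => ?_
      rw [e1, Finset.mul_sum]
      refine Finset.sum_congr rfl fun d _ => ?_
      rw [Finset.prod_mul_distrib, Finset.prod_ite_eq' univ r, if_pos (Finset.mem_univ _)]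
      ring
    rw [e2]
    refine (Finset.abs_sum_le_sum_abs _ _).trans ?_
    have e3 : ∀ d ∈ (univ : Finset P.Cfg), |∑ b : Fin (3 * k + 1) → Fin N → Bool, gsign univ b *
          (∏ i, (φ i b * (if i = r then (if (stp P (W b))^[m] c = d then (1 : ℝ) else 0) else 1))) *
          o ((stp P (W b))^[T'] d)| ≤
        (Fintype.card P.Cfg : ℝ) ^ R * ((2 ^ N : ℝ) ^ (3 * k + 1) * (mu (3 * k)) ^ N) := by
      intro d _
      refine ih T' hT'R d (fun i b => φ i b * (if i = r then
        (if (stp P (W b))^[m] c = d then (1 : ℝ) else 0) else 1)) ?_ ?_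
      · intro i x
        rw [abs_mul]
        have h3 : |(if i = r then (if (stp P (W x))^[m] c = d then (1 : ℝ) else 0) else 1)| ≤ 1 := by
          split_ifs <;> simp
        calc |φ i x| * _ ≤ 1 * 1 := mul_le_mul (h1 i x) h3 (abs_nonneg _) zero_le_one
          _ = 1 := one_mul 1
      · intro i x y hxy
        show φ i x * _ = φ i y * _
        rw [h2 i x y hxy]
        by_cases hi : i = r
        · subst hi
          rw [if_pos rfl, if_pos rfl, hr (W x) (W y) (fun p hp => hW i x y hxy p hp) m hmD]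
        · rw [if_neg hi, if_neg hi]
    refine (Finset.sum_le_sum e3).trans (le_of_eq ?_)
    rw [Finset.sum_const, nsmul_eq_mul, Finset.card_univ]
    ring

theorem gs {g N : ℕ} (b : Fin g → Fin N → Bool) : gsign univ b = 1 ∨ gsign univ b = -1 := by
  have := gsign_abs univ b
  exact eq_or_eq_neg_of_abs_eq this

open Classical in
/-- **Random programs.** -/
theorem bound {D N K T : ℕ} (hD : 0 < D)
    (W : (Fin (3 * k + 1) → Fin N → Bool) → Fin n → Λ)
    (hW : ∀ (r : Fin (3 * k + 1)) (b b' : Fin (3 * k + 1) → Fin N → Bool),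
      (∀ j, j ≠ r → b j = b' j) → ∀ p : Fin n, (p : ℕ) / D ≠ r.val → W b p = W b' p)
    {Ω : Type} [Fintype Ω] (p : Ω → ℝ) (P : Ω → DetProg Λ n k)
    (hp : ∀ ω, 0 ≤ p ω) (hp1 : ∑ ω, p ω = 1) (hK : ∀ ω, Fintype.card (P ω).Cfg ≤ K) (δ : ℝ)
    (h : ∀ b : Fin (3 * k + 1) → Fin N → Bool,
      1 / 2 + δ ≤ prob p P T (W b) (decide (gsign univ b = -1))) :
    2 * δ ≤ (K : ℝ) ^ (T / D + 1) * (mu (3 * k)) ^ N := by
  obtain ⟨tot, htot⟩ : ∃ tot : ℝ, tot = (2 ^ N : ℝ) ^ (3 * k + 1) := ⟨_, rfl⟩
  have htot0 : 0 < tot := by rw [htot]; positivity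
  have hcard : (Fintype.card (Fin (3 * k + 1) → Fin N → Bool) : ℝ) = tot := by
    rw [htot]
    simp
  let o : ∀ ω, (P ω).Cfg → ℝ := fun ω c =>
    if (P ω).out c.1 c.2 = some true then -1 else if (P ω).out c.1 c.2 = some false then 1 else 0
  have hcor : ∀ ω, |∑ b : Fin (3 * k + 1) → Fin N → Bool, gsign univ b *
      o ω ((stp (P ω) (W b))^[T] (P ω).start)| ≤ (K : ℝ) ^ (T / D + 1) * (tot * (mu (3 * k)) ^ N) := by
    intro ω
    have h1 := disc (P ω) hD W hW (o ω) (by intro s; simp only [o]; split_ifs <;> simp)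
      (T / D + 1) T (by
        rw [mul_comm]
        exact (Nat.lt_mul_div_succ T hD).le) (P ω).start (fun _ _ => (1 : ℝ)) (by simp) (by simp)
    simp only [Finset.prod_const_one, mul_one] at h1
    refine h1.trans ?_
    rw [← htot]
    apply mul_le_mul_of_nonneg_right
    · exact pow_le_pow_left₀ (Nat.cast_nonneg _) (by exact_mod_cast hK ω) _
    · exact mul_nonneg htot0.le (pow_nonneg (mu_nonneg _) _)
  have hb : ∀ b : Fin (3 * k + 1) → Fin N → Bool, 2 * δ ≤
      ∑ ω, p ω * (gsign univ b * o ω ((stp (P ω) (W b))^[T] (P ω).start)) := by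
    intro b
    have h1 := h b
    unfold prob at h1
    have h2 : ∀ ω, 2 * (if (P ω).Answers T (W b) (decide (gsign univ b = -1)) then p ω else 0) -
        p ω ≤ p ω * (gsign univ b * o ω ((stp (P ω) (W b))^[T] (P ω).start)) := by
      intro ω
      have hpω := hp ω
      have ho : |o ω ((stp (P ω) (W b))^[T] (P ω).start)| ≤ 1 := by
        simp only [o]; split_ifs <;> simp
      obtain ⟨o1, o2⟩ := abs_le.1 ho
      rw [answers_iff]
      rcases gs b with hg | hg
      · rw [hg]
        have hd : decide ((1 : ℝ) = -1) = false := by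
          rw [decide_eq_false_iff_not]
          norm_num
        rw [hd]
        split_ifs with hA
        · have : o ω ((stp (P ω) (W b))^[T] (P ω).start) = 1 := by
            simp only [o]
            rw [hA]
            simp
          rw [this]
          linarith
        · nlinarith
      · rw [hg]
        have hd : decide ((-1 : ℝ) = -1) = true := by simp
        rw [hd]
        split_ifs with hA
        · have : o ω ((stp (P ω) (W b))^[T] (P ω).start) = -1 := by
            simp only [o]
            rw [hA]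
            simp
          rw [this]
          linarith
        · nlinarith
    have h3 := Finset.sum_le_sum (s := (univ : Finset Ω)) (fun ω _ => h2 ω)
    rw [Finset.sum_sub_distrib, ← Finset.mul_sum, hp1] at h3
    linarith
  have h4 := Finset.sum_le_sum (s := (univ : Finset (Fin (3 * k + 1) → Fin N → Bool)))
    (fun b _ => hb b)
  rw [Finset.sum_const, Finset.card_univ, nsmul_eq_mul, hcard, Finset.sum_comm] at h4
  have h5 : ∑ ω, ∑ b : Fin (3 * k + 1) → Fin N → Bool, p ω * (gsign univ b *
      o ω ((stp (P ω) (W b))^[T] (P ω).start)) ≤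
      ∑ ω, p ω * ((K : ℝ) ^ (T / D + 1) * (tot * (mu (3 * k)) ^ N)) := by
    refine Finset.sum_le_sum fun ω _ => ?_
    rw [← Finset.mul_sum]
    exact mul_le_mul_of_nonneg_left ((le_abs_self _).trans (hcor ω)) (hp ω)
  rw [← Finset.sum_mul, hp1, one_mul] at h5
  have h6 : tot * (2 * δ) ≤ tot * ((K : ℝ) ^ (T / D + 1) * (mu (3 * k)) ^ N) := by
    calc tot * (2 * δ) ≤ _ := h4.trans h5
      _ = _ := by ring
  exact le_of_mul_le_mul_left h6 htot0

end Pool.Agent.TH706.QT
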