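import Pool.Agent.TH457.HT.SatW
import Pool.Agent.H541R2.GIP

/-!
# The generalised inner product as an expression
-/

set_option autoImplicit false

open Finset

namespace Pool.Agent.TH706.QT

open Pool.Agent.W952.Sat
open Pool.Agent.TH457.HT (V V_code bigAnd eval_bigAnd code_bigAnd negs negs_code negs_eval asg asg_V
  bin_length)
open Pool.Agent.H541R2 (gsign)

/-- all bits of column `i` are `1` -/
def cA (r N k i : ℕ) : Expr := bigAnd (fun row => V r 0 (row * N + i)) (3 * k)

/-- `z (i + 1)` is the sum of `z i` and the product of column `i` -/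
def cG (r N k i : ℕ) : Expr :=
  .or (.and (V r 2 (i + 1)) (.or (.and (V r 2 i) (.neg (cA r N k i)))
      (.and (.neg (V r 2 i)) (cA r N k i))))
    (.and (.neg (V r 2 (i + 1))) (.or (.and (V r 2 i) (cA r N k i))
      (.and (.neg (V r 2 i)) (.neg (cA r N k i)))))

theorem cA_code {r N k i : ℕ} (h : (3 * k + 1) * N ≤ 2 ^ r) (hi : i < N) :
    (cA r N k i).code.length = (3 * k + 1) * (r + 4) + 9 * k := by
  unfold cA
  rw [code_bigAnd _ (r + 4) (3 * k)]
  · ring
  · intro row hrow
    apply V_code r 0 _ (by norm_num)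
    refine lt_of_lt_of_le ?_ h
    calc row * N + i < row * N + N := by omega
      _ = (row + 1) * N := by ring
      _ ≤ (3 * k + 1) * N := Nat.mul_le_mul_right _ (by omega)

/-- the length of `cG` -/
def lG (r k : ℕ) : ℕ := 6 * (r + 4) + 4 * ((3 * k + 1) * (r + 4) + 9 * k) + 32

theorem cG_code {r N k i : ℕ} (h : (3 * k + 1) * N ≤ 2 ^ r) (hN : N + 1 ≤ 2 ^ r) (hi : i < N) :
    (cG r N k i).code.length = lG r k := by
  have h1 := cA_code h hi
  have h2 := V_code r 2 i (by norm_num) (by omega)
  have h3 := V_code r 2 (i + 1) (by norm_num) (by omega)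
  unfold cG
  simp only [Expr.code, List.length_cons, List.length_append, List.length_nil]
  rw [h1, h2, h3]
  unfold lG
  ring

/-- the fixed part -/
def RR (r N k pad : ℕ) : Expr :=
  .and (negs (.var 0) pad) (.and (.neg (V r 2 0)) (.and (V r 2 N)
    (.and (bigAnd (cG r N k) (N - 1))
      (bigAnd (fun j => .or (.neg (V r 0 j)) (.neg (V r 1 j))) ((3 * k + 1) * N - 1)))))

/-- the length of `RR` without the padding -/
def lR (r N k : ℕ) : ℕ :=
  (N * lG r k + 3 * (N - 1)) + ((3 * k + 1) * N * (2 * (r + 4) + 5) + 3 * ((3 * k + 1) * N - 1)) +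
    (2 * r + 23)

theorem RR_code {r N k : ℕ} (h : (3 * k + 1) * N ≤ 2 ^ r) (hN : N + 1 ≤ 2 ^ r) (hN1 : 1 ≤ N)
    (pad : ℕ) : (RR r N k pad).code.length = lR r N k + pad := by
  have hM1 : 1 ≤ (3 * k + 1) * N := Nat.mul_pos (by omega) hN1
  have h1 := code_bigAnd (cG r N k) (lG r k) (N - 1) (fun i hi => cG_code h hN (by omega))
  have h2 := code_bigAnd (fun j => .or (.neg (V r 0 j)) (.neg (V r 1 j))) (2 * (r + 4) + 5)
    ((3 * k + 1) * N - 1) (fun j hj => by
      simp only [Expr.code, List.length_cons, List.length_append, List.length_nil]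
      rw [V_code r 0 j (by norm_num) (by omega), V_code r 1 j (by norm_num) (by omega)]
      ring)
  have h3 : (Expr.var 0).code.length = 2 := by
    rw [Expr.code, List.length_cons, bin_length 1 0 (by norm_num) (by norm_num)]
  have h4 := V_code r 2 0 (by norm_num) (by omega)
  have h5 := V_code r 2 N (by norm_num) (by omega)
  rw [show N - 1 + 1 = N by omega] at h1
  rw [show (3 * k + 1) * N - 1 + 1 = (3 * k + 1) * N by omega] at h2
  unfold RR
  simp only [Expr.code, List.length_cons, List.length_append, List.length_nil]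
  rw [h1, h2, negs_code, h3, h4, h5]
  unfold lR
  omega

/-- the whole expression: the bits `j, …, j + t - 1` and the rest -/
def EX (r : ℕ) (B : ℕ → Bool) (R : Expr) : ℕ → ℕ → Expr
  | _, 0 => R
  | j, t + 1 => .and (V r (if B j then 0 else 1) j) (EX r B R (j + 1) t)

theorem eval_EX (ρ : ℕ → Bool) (r : ℕ) (B : ℕ → Bool) (R : Expr) : ∀ t j,
    (EX r B R j t).eval ρ = true ↔
      (∀ i, j ≤ i → i < j + t → (V r (if B i then 0 else 1) i).eval ρ = true) ∧
        R.eval ρ = true := by
  intro t
  induction t with
  | zero =>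
    intro j
    rw [EX]
    exact ⟨fun h => ⟨fun i h1 h2 => absurd h2 (by omega), h⟩, fun h => h.2⟩
  | succ t ih =>
    intro j
    rw [EX, Expr.eval, Bool.and_eq_true, ih]
    constructor
    · rintro ⟨h1, h2, h3⟩
      refine ⟨fun i h4 h5 => ?_, h3⟩
      rcases Nat.lt_or_ge j i with h | h
      · exact h2 i h (by omega)
      · rw [show i = j by omega]; exact h1
    · rintro ⟨h1, h2⟩
      exact ⟨h1 j le_rfl (by omega), fun i h3 h4 => h1 i (by omega) (by omega), h2⟩

/-- the part of the word which contains bit `j` -/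
def fb (r : ℕ) (B : ℕ → Bool) (j : ℕ) : List Sym :=
  Sym.lpar :: ((V r (if B j then 0 else 1) j).code ++ [Sym.and])

theorem code_EX (r : ℕ) (B : ℕ → Bool) (R : Expr) : ∀ t j,
    (EX r B R j t).code = ((List.range' j t).map (fb r B)).flatten
      ++ (R.code ++ List.replicate t Sym.rpar) := by
  intro t
  induction t with
  | zero => intro j; simp [EX]
  | succ t ih =>
    intro j
    rw [EX, Expr.code, ih, List.range'_succ, List.map_cons, List.flatten_cons,
      List.replicate_succ']
    unfold fb
    simp only [List.cons_append, List.append_assoc, List.nil_append]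

theorem fb_length {r : ℕ} (B : ℕ → Bool) {j : ℕ} (hj : j < 2 ^ r) :
    (fb r B j).length = r + 6 := by
  unfold fb
  rw [List.length_cons, List.length_append, V_code r _ j (by split_ifs <;> norm_num) hj]
  simp

theorem flat_length {r : ℕ} (B : ℕ → Bool) : ∀ t j, j + t ≤ 2 ^ r →
    (((List.range' j t).map (fb r B)).flatten).length = t * (r + 6) := by
  intro t
  induction t with
  | zero => intro j _; simp
  | succ t ih =>
    intro j hj
    rw [List.range'_succ, List.map_cons, List.flatten_cons, List.length_append,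
      ih (j + 1) (by omega), fb_length B (by omega)]
    ring

theorem flat_get {r : ℕ} (B : ℕ → Bool) : ∀ t j p, j + t ≤ 2 ^ r → p < t * (r + 6) →
    (((List.range' j t).map (fb r B)).flatten)[p]? =
      (fb r B (j + p / (r + 6)))[p % (r + 6)]? := by
  intro t
  induction t with
  | zero => intro j p _ hp; simp at hp
  | succ t ih =>
    intro j p hj hp
    rw [List.range'_succ, List.map_cons, List.flatten_cons]
    have hl := fb_length (r := r) B (j := j) (by omega)
    rcases Nat.lt_or_ge p (r + 6) with h | h
    · rw [List.getElem?_append_left (by rw [hl]; exact h), Nat.div_eq_of_lt h, Nat.mod_eq_of_lt h,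
        add_zero]
    · rw [List.getElem?_append_right (by rw [hl]; exact h), hl, ih (j + 1) (p - (r + 6)) (by omega)
        (by
          have e : (t + 1) * (r + 6) = t * (r + 6) + (r + 6) := by ring
          omega)]
      have e1 : p / (r + 6) = (p - (r + 6)) / (r + 6) + 1 := by
        rw [← Nat.add_div_right _ (by omega)]
        congr 1
        omega
      have e2 : p % (r + 6) = (p - (r + 6)) % (r + 6) := by
        rw [← Nat.add_mod_right (p - (r + 6)) (r + 6)]
        congr 1
        omega
      rw [e1, e2]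
      congr 2
      ring

theorem EX_length {r N k : ℕ} (h : (3 * k + 1) * N ≤ 2 ^ r) (hN : N + 1 ≤ 2 ^ r) (hN1 : 1 ≤ N)
    (pad : ℕ) (B : ℕ → Bool) : (EX r B (RR r N k pad) 0 ((3 * k + 1) * N)).code.length =
      (3 * k + 1) * N * (r + 7) + lR r N k + pad := by
  rw [code_EX, List.length_append, List.length_append, flat_length B _ 0 (by omega),
    RR_code h hN hN1, List.length_replicate]
  ring

/-- a lower position is in the part of one bit, the others do not depend on the bits -/
theorem code_congr {r N k : ℕ} (h : (3 * k + 1) * N ≤ 2 ^ r) (R : Expr) {B B' : ℕ → Bool}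
    {p : ℕ} (hB : p / (r + 6) < (3 * k + 1) * N → B (p / (r + 6)) = B' (p / (r + 6))) :
    (EX r B R 0 ((3 * k + 1) * N)).code[p]? = (EX r B' R 0 ((3 * k + 1) * N)).code[p]? := by
  rw [code_EX, code_EX]
  have hl := flat_length (r := r) B ((3 * k + 1) * N) 0 (by omega)
  have hl' := flat_length (r := r) B' ((3 * k + 1) * N) 0 (by omega)
  rcases Nat.lt_or_ge p ((3 * k + 1) * N * (r + 6)) with h1 | h1
  · rw [List.getElem?_append_left (by rw [hl]; exact h1),
      List.getElem?_append_left (by rw [hl']; exact h1),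
      flat_get B _ 0 p (by omega) h1, flat_get B' _ 0 p (by omega) h1, zero_add]
    have h2 : p / (r + 6) < (3 * k + 1) * N := Nat.div_lt_of_lt_mul (by rw [mul_comm]; exact h1)
    unfold fb
    rw [hB h2]
  · have a1 : ∀ (C : ℕ → Bool) (Y : List Sym),
        (((List.range' 0 ((3 * k + 1) * N)).map (fb r C)).flatten).length =
          (3 * k + 1) * N * (r + 6) →
        ((((List.range' 0 ((3 * k + 1) * N)).map (fb r C)).flatten) ++ Y)[p]? =
          Y[p - (3 * k + 1) * N * (r + 6)]? := fun C Y hC => by
      rw [List.getElem?_append_right (by rw [hC]; exact h1), hC]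
    rw [a1 B _ hl, a1 B' _ hl']

/-! ### semantics -/

/-- the sums -/
def zf (S : ℕ → Bool) : ℕ → Bool
  | 0 => false
  | i + 1 => xor (zf S i) (S i)

theorem cG_eval (r N k i : ℕ) (ρ : ℕ → Bool) : (cG r N k i).eval ρ = true ↔
    (V r 2 (i + 1)).eval ρ = xor ((V r 2 i).eval ρ) ((cA r N k i).eval ρ) := by
  unfold cG
  simp only [Expr.eval]
  generalize (V r 2 (i + 1)).eval ρ = a
  generalize (V r 2 i).eval ρ = b
  generalize (cA r N k i).eval ρ = c
  cases a <;> cases b <;> cases c <;> simp

theorem sat_EX {r N k : ℕ} (h : (3 * k + 1) * N ≤ 2 ^ r) (hN : N + 1 ≤ 2 ^ r) (hN1 : 1 ≤ N)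
    (pad : ℕ) (B : ℕ → Bool) (S : ℕ → Bool)
    (hS : ∀ i < N, (S i = true ↔ ∀ row ≤ 3 * k, B (row * N + i) = true)) :
    (EX r B (RR r N k pad) 0 ((3 * k + 1) * N)).Satisfiable ↔ zf S N = true := by
  have hM1 : 1 ≤ (3 * k + 1) * N := Nat.mul_pos (by omega) hN1
  have hidx : ∀ i < N, ∀ row ≤ 3 * k, row * N + i < (3 * k + 1) * N := by
    intro i hi row hrow
    calc row * N + i < row * N + N := by omega
      _ = (row + 1) * N := by ring
      _ ≤ (3 * k + 1) * N := Nat.mul_le_mul_right _ (by omega)
  constructor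
  · rintro ⟨ρ, hρ⟩
    rw [eval_EX] at hρ
    obtain ⟨h1, h2⟩ := hρ
    unfold RR at h2
    simp only [Expr.eval, Bool.and_eq_true, Bool.not_eq_true', eval_bigAnd, Bool.or_eq_true] at h2
    obtain ⟨-, h3, h4, h5, h6⟩ := h2
    have hBv : ∀ j < (3 * k + 1) * N, (V r 0 j).eval ρ = B j := by
      intro j hj
      have e1 := h1 j (Nat.zero_le _) (by omega)
      have e2 := h6 j (by omega)
      cases hb : B j with
      | true =>
        rw [hb] at e1
        simpa using e1
      | false =>
        rw [hb] at e1
        simp only [Bool.false_eq_true, if_false] at e1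
        rw [e1] at e2
        simpa using e2
    have hz : ∀ i ≤ N, (V r 2 i).eval ρ = zf S i := by
      intro i
      induction i with
      | zero => intro _; exact h3
      | succ i ih =>
        intro hi
        have e1 := (cG_eval r N k i ρ).1 (h5 i (by omega))
        rw [e1, ih (by omega)]
        show _ = xor (zf S i) (S i)
        congr 1
        rw [Bool.eq_iff_iff, hS i (by omega)]
        unfold cA
        rw [eval_bigAnd]
        constructor
        · intro h7 row hrow
          rw [← hBv _ (hidx i (by omega) row hrow)]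
          exact h7 row hrow
        · intro h7 row hrow
          rw [hBv _ (hidx i (by omega) row hrow)]
          exact h7 row hrow
    rw [← hz N le_rfl]
    exact h4
  · intro hz
    obtain ⟨F, hF⟩ : ∃ F : ℕ → ℕ → Bool, F = fun g i =>
      if g = 0 then B i else if g = 1 then !(B i) else zf S i := ⟨_, rfl⟩
    refine ⟨asg r F (decide (pad % 2 = 0)), ?_⟩
    obtain ⟨ρ, hρ⟩ : ∃ ρ, ρ = asg r F (decide (pad % 2 = 0)) := ⟨_, rfl⟩
    rw [← hρ]
    have hV : ∀ g < 4, ∀ i < 2 ^ r, (V r g i).eval ρ = F g i := by
      intro g hg i hi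
      rw [hρ]
      exact asg_V r F _ g i hg hi
    rw [eval_EX]
    constructor
    · intro i _ hi
      rw [hV _ (by split_ifs <;> norm_num) i (by omega), hF]
      cases hb : B i <;> simp [hb]
    · unfold RR
      simp only [Expr.eval, Bool.and_eq_true, Bool.not_eq_true', eval_bigAnd, Bool.or_eq_true]
      refine ⟨?_, ?_, ?_, ?_, ?_⟩
      · rw [negs_eval]
        have e1 : (Expr.var 0).eval ρ = decide (pad % 2 = 0) := by
          rw [Expr.eval, hρ]
          unfold asg
          rw [if_pos rfl]
        rw [e1]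
        rcases Nat.mod_two_eq_zero_or_one pad with h7 | h7 <;> simp [h7]
      · rw [hV 2 (by norm_num) 0 (by omega), hF]
        rfl
      · rw [hV 2 (by norm_num) N (by omega), hF]
        simpa using hz
      · intro i hi
        rw [cG_eval, hV 2 (by norm_num) (i + 1) (by omega), hV 2 (by norm_num) i (by omega)]
        have e1 : (cA r N k i).eval ρ = S i := by
          rw [Bool.eq_iff_iff, hS i (by omega)]
          unfold cA
          rw [eval_bigAnd]
          have e2 : ∀ row ≤ 3 * k, (V r 0 (row * N + i)).eval ρ = B (row * N + i) := by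
            intro row hrow
            have := hidx i (by omega) row hrow
            rw [hV 0 (by norm_num) _ (by omega), hF]
            rfl
          constructor
          · intro h7 row hrow
            rw [← e2 row hrow]
            exact h7 row hrow
          · intro h7 row hrow
            rw [e2 row hrow]
            exact h7 row hrow
        rw [e1, hF]
        rfl
      · intro j hj
        rw [hV 0 (by norm_num) j (by omega), hV 1 (by norm_num) j (by omega), hF]
        cases hb : B j <;> simp [hb]

/-- the bits of a matrix, row by row -/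
def Bf {k N : ℕ} (b : Fin (3 * k + 1) → Fin N → Bool) (j : ℕ) : Bool :=
  if h : j / N < 3 * k + 1 ∧ 0 < N then b ⟨j / N, h.1⟩ ⟨j % N, Nat.mod_lt _ h.2⟩ else false

theorem Bf_eq {k N : ℕ} (b : Fin (3 * k + 1) → Fin N → Bool) (row : Fin (3 * k + 1)) (i : Fin N) :
    Bf b (row.val * N + i.val) = b row i := by
  have hN : 0 < N := by have := i.2; omega
  have h1 : (row.val * N + i.val) / N = row.val := by
    rw [mul_comm, Nat.mul_add_div hN, Nat.div_eq_of_lt i.2, add_zero]
  have h2 : (row.val * N + i.val) % N = i.val := by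
    rw [mul_comm, Nat.mul_add_mod, Nat.mod_eq_of_lt i.2]
  unfold Bf
  rw [dif_pos ⟨by rw [h1]; exact row.2, hN⟩]
  have e1 : (⟨(row.val * N + i.val) / N, by rw [h1]; exact row.2⟩ : Fin (3 * k + 1)) = row :=
    Fin.ext h1
  have e2 : (⟨(row.val * N + i.val) % N, Nat.mod_lt _ hN⟩ : Fin N) = i := Fin.ext h2
  rw [e1, e2]

open Classical in
/-- the products of the columns -/
noncomputable def Sf {k N : ℕ} (b : Fin (3 * k + 1) → Fin N → Bool) (i : ℕ) : Bool :=
  if h : i < N then decide (∀ row, b row ⟨i, h⟩ = true) else false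

theorem gsign_iff {k N : ℕ} (b : Fin (3 * k + 1) → Fin N → Bool) :
    gsign univ b = -1 ↔ zf (Sf b) N = true := by
  classical
  have h1 : gsign univ b = ∏ i ∈ range N, (if Sf b i = true then (-1 : ℝ) else 1) := by
    unfold gsign
    rw [← Fin.prod_univ_eq_prod_range (fun i => if Sf b i = true then (-1 : ℝ) else 1) N]
    refine Finset.prod_congr rfl fun i _ => ?_
    unfold Sf
    rw [dif_pos i.2]
    simp only [decide_eq_true_eq, Fin.eta]
  have h2 : ∀ m, ∏ i ∈ range m, (if Sf b i = true then (-1 : ℝ) else 1) =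
      if zf (Sf b) m = true then (-1 : ℝ) else 1 := by
    intro m
    induction m with
    | zero => simp [zf]
    | succ m ih =>
      rw [Finset.prod_range_succ, ih]
      show _ = if xor (zf (Sf b) m) (Sf b m) = true then (-1 : ℝ) else 1
      cases zf (Sf b) m <;> cases Sf b m <;> simp
  rw [h1, h2]
  cases zf (Sf b) N <;> norm_num

theorem Sf_iff {k N : ℕ} (b : Fin (3 * k + 1) → Fin N → Bool) :
    ∀ i < N, (Sf b i = true ↔ ∀ row ≤ 3 * k, Bf b (row * N + i) = true) := by
  intro i hi
  unfold Sf
  rw [dif_pos hi, decide_eq_true_iff]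
  constructor
  · intro h row hrow
    have := Bf_eq b ⟨row, by omega⟩ ⟨i, hi⟩
    simp only at this
    rw [this]
    exact h _
  · intro h row
    have := Bf_eq b row ⟨i, hi⟩
    simp only at this
    rw [← this]
    exact h row.val (by have := row.2; omega)

theorem word_some {n : ℕ} (e : Expr) (h : e.code.length = n) (i : Fin n) :
    e.code[(i : ℕ)]? = some (Pool.Agent.W952.Sat.word e h i) := by
  unfold Pool.Agent.W952.Sat.word
  rw [List.getElem?_eq_getElem (by rw [h]; exact i.2)]
  rfl

end Pool.Agent.TH706.QT
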