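import Pool.Agent.TH706.QT.Disc
import Pool.Agent.TH706.QT.Word

/-!
# Satisfiability needs almost quadratic time on machines with several slow heads
-/

set_option autoImplicit false

open Finset

namespace Pool.Agent.TH706.QT

open Pool.Agent.W952.Sat
open Pool.Agent.TH457.HT (DetProg prob)
open Pool.Agent.H541R2 (gsign mu mu_nonneg mu_lt_one)

open Classical in
/-- the bound for one size of the matrix -/
theorem sat_gip {n k r N T S : ℕ} (h : (3 * k + 1) * N ≤ 2 ^ r) (hN : N + 1 ≤ 2 ^ r)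
    (hN1 : 1 ≤ N) (hn : (3 * k + 1) * N * (r + 7) + lR r N k ≤ n)
    {Ω : Type} [Fintype Ω] (p : Ω → ℝ) (P : Ω → DetProg Sym n k)
    (hp : ∀ ω, 0 ≤ p ω) (hp1 : ∑ ω, p ω = 1)
    (hS : ∀ ω, Fintype.card (P ω).Q * n ^ k ≤ 2 ^ S) (δ : ℝ)
    (hδ : ∀ (e : Expr) (he : e.code.length = n),
      1 / 2 + δ ≤ prob p P T (Pool.Agent.W952.Sat.word e he) (decide e.Satisfiable)) :
    2 * δ ≤ ((2 ^ S : ℕ) : ℝ) ^ (T / (N * (r + 6)) + 1) * (mu (3 * k)) ^ N := by
  obtain ⟨pad, hpad⟩ : ∃ pad, pad = n - ((3 * k + 1) * N * (r + 7) + lR r N k) := ⟨_, rfl⟩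
  have hlen : ∀ b : Fin (3 * k + 1) → Fin N → Bool,
      (EX r (Bf b) (RR r N k pad) 0 ((3 * k + 1) * N)).code.length = n := by
    intro b
    rw [EX_length h hN hN1]
    omega
  refine bound (T := T) (Nat.mul_pos hN1 (by omega) : 0 < N * (r + 6))
    (fun b => Pool.Agent.W952.Sat.word _ (hlen b)) ?_ p P hp hp1 ?_ δ ?_
  · intro r0 b b' hbb q hq
    apply Option.some_injective
    rw [← word_some, ← word_some]
    apply code_congr h
    intro _
    have h1 : (q : ℕ) / (r + 6) / N ≠ r0.val := by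
      rw [Nat.div_div_eq_div_mul, mul_comm]
      exact hq
    unfold Bf
    split_ifs with h2
    · rw [hbb ⟨_, h2.1⟩ (fun h3 => h1 (congrArg Fin.val h3))]
    · rfl
  · intro ω
    refine le_trans (le_of_eq ?_) (hS ω)
    rw [Fintype.card_prod, Fintype.card_fun, Fintype.card_fin, Fintype.card_fin]
  · intro b
    have h1 := hδ _ (hlen b)
    have h2 : decide (gsign univ b = -1) =
        decide (EX r (Bf b) (RR r N k pad) 0 ((3 * k + 1) * N)).Satisfiable := by
      rw [decide_eq_decide]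
      exact (gsign_iff b).trans (sat_EX h hN hN1 pad (Bf b) (Sf b) (Sf_iff b)).symm
    rw [h2]
    exact h1

theorem len_le {r N k : ℕ} (hN1 : 1 ≤ N) :
    (3 * k + 1) * N * (r + 7) + lR r N k ≤ (48 * k + 36) * (N * (r + 4)) := by
  unfold lR lG
  have h1 : (3 * k + 1) * N * (r + 7) ≤ (3 * k + 1) * N * (2 * (r + 4)) :=
    Nat.mul_le_mul_left _ (by omega)
  have h2 : (3 * k + 1) * N * (2 * (r + 4) + 5) ≤ (3 * k + 1) * N * (4 * (r + 4)) :=
    Nat.mul_le_mul_left _ (by omega)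
  have h3 : N * (6 * (r + 4) + 4 * ((3 * k + 1) * (r + 4) + 9 * k) + 32) ≤
      N * ((21 * k + 18) * (r + 4)) := by
    apply Nat.mul_le_mul_left
    nlinarith
  have h4 : 3 * (N - 1) + 3 * ((3 * k + 1) * N - 1) ≤ (9 * k + 6) * (N * (r + 4)) := by
    have e1 : 3 * (N - 1) + 3 * ((3 * k + 1) * N - 1) ≤ 3 * N + 3 * ((3 * k + 1) * N) := by omega
    have e2 : 3 * N + 3 * ((3 * k + 1) * N) = (9 * k + 6) * N := by ring
    have e3 : (9 * k + 6) * N ≤ (9 * k + 6) * (N * (r + 4)) :=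
      Nat.mul_le_mul_left _ (Nat.le_mul_of_pos_right _ (by omega))
    omega
  have h5 : 2 * r + 23 ≤ 6 * (N * (r + 4)) := by nlinarith
  have e : (48 * k + 36) * (N * (r + 4)) = (3 * k + 1) * N * (2 * (r + 4)) +
      (3 * k + 1) * N * (4 * (r + 4)) + N * ((21 * k + 18) * (r + 4)) +
      (9 * k + 6) * (N * (r + 4)) + 6 * (N * (r + 4)) := by ring
  rw [e]
  omega

open Classical in
/-- **Almost quadratic time.** -/
theorem main (k : ℕ) : ∃ c : ℝ, 0 < c ∧ ∃ n₀ : ℕ, ∀ n ≥ n₀, ∀ (T S : ℕ)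
    (Ω : Type) [Fintype Ω] (p : Ω → ℝ) (P : Ω → DetProg Sym n k),
    (∀ ω, 0 ≤ p ω) → ∑ ω, p ω = 1 → (∀ ω, Fintype.card (P ω).Q * n ^ k ≤ 2 ^ S) →
    (∀ (e : Expr) (he : e.code.length = n), 1 / 2 + (2 : ℝ) ^ (-(c * n / Real.logb 2 n)) ≤
      prob p P T (Pool.Agent.W952.Sat.word e he) (decide e.Satisfiable)) →
    c * (n : ℝ) ^ 2 ≤ (T + n) * S * Real.logb 2 n := by
  obtain ⟨C, hC⟩ : ∃ C : ℕ, C = 48 * k + 36 := ⟨_, rfl⟩
  have hC1 : (1 : ℝ) ≤ C := by
    have : 1 ≤ C := by omega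
    exact_mod_cast this
  obtain ⟨μ', hμ'⟩ : ∃ μ' : ℝ, μ' = max (mu (3 * k)) (1 / 2) := ⟨_, rfl⟩
  have hμ'1 : μ' < 1 := by rw [hμ']; exact max_lt (mu_lt_one _) (by norm_num)
  have hμ'0 : 0 < μ' := by rw [hμ']; exact lt_of_lt_of_le (by norm_num) (le_max_right _ _)
  obtain ⟨lam, hlam⟩ : ∃ lam : ℝ, lam = -Real.logb 2 μ' := ⟨_, rfl⟩
  have hlam0 : 0 < lam := by
    have := Real.logb_neg (b := 2) (by norm_num) hμ'0 hμ'1
    linarith
  obtain ⟨c, hc⟩ : ∃ c : ℝ, c = lam / (64 * C ^ 2) := ⟨_, rfl⟩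
  have hc0 : 0 < c := by rw [hc]; positivity
  have hev : ∀ᶠ n : ℕ in Filter.atTop, (2 * C : ℝ) * (Real.logb 2 n + 7) ≤ n := by
    have h1 : (fun x : ℝ => (2 * C : ℝ) * (Real.logb 2 x + 7)) =o[Filter.atTop] fun x => x := by
      apply Asymptotics.IsLittleO.const_mul_left
      apply Asymptotics.IsLittleO.add
      · have h3 : Real.logb 2 = fun x => (1 / Real.log 2) * Real.log x := by
          funext x
          unfold Real.logb
          ring
        rw [h3]
        exact Real.isLittleO_log_id_atTop.const_mul_left _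
      · exact Asymptotics.isLittleO_const_id_atTop _
    have h6 := (h1.comp_tendsto tendsto_natCast_atTop_atTop).bound (show (0 : ℝ) < 1 by norm_num)
    filter_upwards [h6] with n hn
    simp only [Function.comp_apply, one_mul] at hn
    rw [Real.norm_of_nonneg (Nat.cast_nonneg n)] at hn
    exact (le_abs_self _).trans hn
  obtain ⟨n₀, hn₀⟩ := Filter.eventually_atTop.1 hev
  refine ⟨c, hc0, n₀ + 2, fun n hn T S Ω _ p P hp hp1 hS hδ => ?_⟩
  have hn2 : 2 ≤ n := by omega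
  have hn2' : (2 : ℝ) ≤ n := by exact_mod_cast hn2
  have hn0 : (0 : ℝ) < n := by linarith
  obtain ⟨l, hl⟩ : ∃ l, l = Real.logb 2 n := ⟨_, rfl⟩
  have hbig := hn₀ n (by omega)
  rw [← hl] at hbig hδ ⊢
  have hl1 : 1 ≤ l := by
    rw [hl, Real.le_logb_iff_rpow_le (by norm_num) hn0, Real.rpow_one]
    exact hn2'
  obtain ⟨r, hr⟩ : ∃ r, r = Nat.log 2 n + 1 := ⟨_, rfl⟩
  have hnr : n < 2 ^ r := by
    rw [hr]
    exact Nat.lt_pow_succ_log_self (by norm_num) n
  have hlogl : (Nat.log 2 n : ℝ) ≤ l := by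
    rw [hl, Real.le_logb_iff_rpow_le (by norm_num) hn0, Real.rpow_natCast]
    exact_mod_cast Nat.pow_log_le_self 2 (by omega)
  obtain ⟨X, hX⟩ : ∃ X, X = r + 6 := ⟨_, rfl⟩
  have hXl : (X : ℝ) ≤ l + 7 := by
    rw [hX, hr]
    push_cast
    linarith
  have hXl8 : (X : ℝ) ≤ 8 * l := by linarith
  have hX1 : 1 ≤ X := by omega
  have hX0 : (0 : ℝ) < X := by
    have : 0 < X := by omega
    exact_mod_cast this
  have hCX : 2 * C * X ≤ n := by
    have h1 : ((2 * C * X : ℕ) : ℝ) ≤ n := by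
      push_cast
      refine le_trans ?_ hbig
      exact mul_le_mul_of_nonneg_left hXl (by positivity)
    exact_mod_cast h1
  obtain ⟨N, hN⟩ : ∃ N, N = n / (C * X) := ⟨_, rfl⟩
  have hCX0 : 0 < C * X := Nat.mul_pos (by omega) hX1
  have hN1 : 1 ≤ N := by
    rw [hN, Nat.le_div_iff_mul_le hCX0]
    have : 2 * C * X = 2 * (C * X) := by ring
    omega
  have hNn : N * (C * X) ≤ n := by
    rw [hN]
    exact Nat.div_mul_le_self _ _
  have hNge : n ≤ 2 * (N * (C * X)) := by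
    have h1 : n < (N + 1) * (C * X) := by
      rw [hN, mul_comm]
      exact Nat.lt_mul_div_succ n hCX0
    have h2 : (N + 1) * (C * X) = N * (C * X) + C * X := by ring
    have h3 : C * X ≤ N * (C * X) := Nat.le_mul_of_pos_left _ hN1
    omega
  have hM : (3 * k + 1) * N ≤ 2 ^ r := by
    have h1 : (3 * k + 1) * N ≤ N * (C * X) := by
      calc (3 * k + 1) * N = N * (3 * k + 1) := by ring
        _ ≤ N * C := Nat.mul_le_mul_left _ (by omega)
        _ ≤ N * (C * X) := Nat.mul_le_mul_left _ (Nat.le_mul_of_pos_right _ hX1)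
    omega
  have hNr : N + 1 ≤ 2 ^ r := by
    have h1 : N ≤ N * (C * X) := Nat.le_mul_of_pos_right _ hCX0
    omega
  have hlen : (3 * k + 1) * N * (r + 7) + lR r N k ≤ n := by
    refine (len_le hN1).trans ?_
    rw [← hC]
    refine le_trans ?_ hNn
    calc C * (N * (r + 4)) ≤ C * (N * X) :=
          Nat.mul_le_mul_left _ (Nat.mul_le_mul_left _ (by omega))
      _ = N * (C * X) := by ring
  have hlaw := sat_gip hM hNr hN1 hlen p P hp hp1 hS _ hδ
  rw [← hX] at hlaw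
  obtain ⟨R, hR⟩ : ∃ R, R = T / (N * X) + 1 := ⟨_, rfl⟩
  rw [← hR] at hlaw
  have hmuN : (mu (3 * k)) ^ N ≤ (2 : ℝ) ^ (-(lam * N)) := by
    have h2 : (mu (3 * k)) ^ N ≤ μ' ^ N :=
      pow_le_pow_left₀ (mu_nonneg _) (by rw [hμ']; exact le_max_left _ _) N
    refine h2.trans (le_of_eq ?_)
    have e2 : μ' = (2 : ℝ) ^ (-lam) := by
      rw [hlam, neg_neg, Real.rpow_logb (by norm_num) (by norm_num) hμ'0]
    rw [e2, ← Real.rpow_natCast, ← Real.rpow_mul (by norm_num)]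
    congr 1
    ring
  have h2S : (((2 ^ S : ℕ) : ℝ)) ^ R = (2 : ℝ) ^ ((S : ℝ) * R) := by
    push_cast
    rw [← pow_mul, ← Real.rpow_natCast]
    congr 1
    push_cast
    ring
  have h1 : (2 : ℝ) ^ (1 + -(c * n / l)) ≤ (2 : ℝ) ^ ((S : ℝ) * R + -(lam * N)) := by
    rw [Real.rpow_add (by norm_num), Real.rpow_add (by norm_num), Real.rpow_one, ← h2S]
    refine hlaw.trans ?_
    exact mul_le_mul_of_nonneg_left hmuN (by positivity)
  have h2 : 1 + -(c * n / l) ≤ (S : ℝ) * R + -(lam * N) :=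
    (Real.rpow_le_rpow_left_iff (by norm_num)).1 h1
  -- the numbers
  have hl0 : 0 < l := by linarith
  have hNge' : (n : ℝ) ≤ 2 * (N * (C * X)) := by exact_mod_cast hNge
  have hN0 : (0 : ℝ) < N := by exact_mod_cast hN1
  have h3 : (n : ℝ) / (16 * C * l) ≤ N := by
    rw [div_le_iff₀ (by positivity)]
    calc (n : ℝ) ≤ 2 * (N * (C * X)) := hNge'
      _ ≤ 2 * (N * (C * (8 * l))) := by gcongr
      _ = N * (16 * C * l) := by ring
  have h4 : (R : ℝ) ≤ 2 * C * (T + n) / n := by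
    have e1 : ((T / (N * X) : ℕ) : ℝ) ≤ (T : ℝ) / ((N * X : ℕ) : ℝ) := Nat.cast_div_le
    have e2 : (T : ℝ) / ((N * X : ℕ) : ℝ) ≤ 2 * C * T / n := by
      have e3 : (0 : ℝ) < ((N * X : ℕ) : ℝ) := by
        have : 0 < N * X := Nat.mul_pos hN1 hX1
        exact_mod_cast this
      rw [div_le_div_iff₀ e3 hn0]
      have e4 : (n : ℝ) ≤ 2 * C * ((N * X : ℕ) : ℝ) := by
        push_cast
        calc (n : ℝ) ≤ 2 * (N * (C * X)) := hNge'
          _ = 2 * C * (N * X) := by ring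
      calc (T : ℝ) * n ≤ T * (2 * C * ((N * X : ℕ) : ℝ)) :=
            mul_le_mul_of_nonneg_left e4 (Nat.cast_nonneg _)
        _ = _ := by ring
    rw [hR]
    push_cast
    push_cast at e1 e2
    have e5 : 2 * (C : ℝ) * (T + n) / n = 2 * C * T / n + 2 * C := by
      field_simp
    rw [e5]
    linarith
  have h5 : c * n / l ≤ lam * N / 2 := by
    have e1 : c * n / l ≤ lam / 2 * (n / (16 * C * l)) := by
      rw [hc]
      have e2 : lam / (64 * (C : ℝ) ^ 2) * n / l = (lam * n / l) * (1 / (64 * (C : ℝ) ^ 2)) := by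
        field_simp
      have e3 : lam / 2 * (n / (16 * C * l)) = (lam * n / l) * (1 / (32 * (C : ℝ))) := by
        field_simp
        ring
      rw [e2, e3]
      apply mul_le_mul_of_nonneg_left _ (by positivity)
      apply one_div_le_one_div_of_le (by positivity)
      nlinarith
    have e2 := mul_le_mul_of_nonneg_left h3 (show 0 ≤ lam / 2 by linarith)
    linarith
  have h6 : lam * N / 2 ≤ S * (2 * C * (T + n) / n) := by
    have e1 := mul_le_mul_of_nonneg_left h4 (show (0 : ℝ) ≤ S from Nat.cast_nonneg S)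
    linarith
  have h7 : lam / 2 * (n / (16 * C * l)) ≤ S * (2 * C * (T + n) / n) := by
    have e2 := mul_le_mul_of_nonneg_left h3 (show 0 ≤ lam / 2 by linarith)
    linarith
  have h8 : lam / 2 * (n / (16 * C * l)) * (2 * C * (T + n) / n * 0 + n * l / (2 * C)) ≤
      S * (2 * C * (T + n) / n) * (2 * C * (T + n) / n * 0 + n * l / (2 * C)) :=
    mul_le_mul_of_nonneg_right h7 (by
      have : 0 ≤ (n : ℝ) * l / (2 * C) := by positivity
      linarith)
  have hC0 : (0 : ℝ) < C := by linarith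
  have e9 : lam / 2 * (n / (16 * C * l)) * (2 * C * (T + n) / n * 0 + n * l / (2 * C)) =
      c * (n : ℝ) ^ 2 := by
    rw [hc]
    field_simp
    ring
  have e10 : (S : ℝ) * (2 * C * (T + n) / n) * (2 * C * (T + n) / n * 0 + n * l / (2 * C)) =
      (T + n) * S * l := by
    field_simp
    ring
  rw [e9, e10] at h8
  exact h8

end Pool.Agent.TH706.QT
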